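import Mathlib
import Pool.Agent.Helper97.DixA.Defs
import Pool.Agent.Helper97.DixA.Aut

set_option autoImplicit false

namespace Pool.Agent.Results.MP_d88b0b_al.FiniteAut

open Pool.Agent.Helper97.Dix Pool.Agent.Helper97.DixA

/-- Let `Ω_1, ..., Ω_d` be i.s. potentials of degrees `N_i ≥ 4` (equal degrees allowed) over a
field `k` of characteristic zero, and let `ξ_i` be scalars. Then the group of the Poisson
automorphisms of the Poisson algebra `P`, the tensor product of the algebras
`k[x, y, z] / (Ω_i - ξ_i)`, is finite. -/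
theorem result {k : Type*} [Field k] [CharZero k] (d : ℕ) (Ω : Fin d → MvPolynomial (Fin 3) k)
    (N : Fin d → ℕ) (hN : ∀ i, 4 ≤ N i) (hΩ : ∀ i, IsISPotential (Ω i) (N i)) (ξ : Fin d → k) :
    (poissonAut Ω ξ).Finite :=
  tens_finite (ξ := ξ) hΩ hN

end Pool.Agent.Results.MP_d88b0b_al.FiniteAut
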