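import Mathlib
import Pool.Agent.Helper97.Dix.Defs
import Pool.Agent.Helper97.Dix.Tens

set_option autoImplicit false

namespace Pool.Agent.Results.MP_d88b0b_al.TensorDixmier

open Pool.Agent.Helper97.Dix

/-- Let `Ω_1, ..., Ω_d` be i.s. potentials of degrees `N_i ≥ 4` (equal degrees allowed) over a
field `k`, and let `ξ_i` be scalars. Then the Poisson algebra `P`, the tensor product of the
algebras `k[x, y, z] / (Ω_i - ξ_i)`, is Dixmier: every injective Poisson algebra endomorphism of
`P` is bijective. -/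
theorem result {k : Type*} [Field k] (d : ℕ) (Ω : Fin d → MvPolynomial (Fin 3) k)
    (N : Fin d → ℕ) (hN : ∀ i, 4 ≤ N i) (hΩ : ∀ i, IsISPotential (Ω i) (N i)) (ξ : Fin d → k) :
    IsDixmier Ω ξ :=
  tens_dixmier hΩ hN

end Pool.Agent.Results.MP_d88b0b_al.TensorDixmier
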